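import Pool.Agent.L7h51.KM.Stm

/-!
Project KM, part SK: the skew lemma.
-/

namespace Pool.Agent.L7h41.KM

open Pool.Agent.L7h51.KM Set Cardinal

universe u

theorem s_SK : S_SK.{u} := by
  intro α M G Q P hGQ hdis hP x hx
  have hPE : P ⊆ M.E := hP.trans (M.closure_subset_ground G)
  have hG : M.Indep G := hGQ.subset subset_union_left
  have hQ : M.Indep Q := hGQ.subset subset_union_right
  have hQE : Q ⊆ M.E := hQ.subset_ground
  obtain ⟨P0, hP0⟩ := M.exists_isBasis P hPE
  obtain ⟨P1, hP1, hP01⟩ := hP0.indep.subset_isBasis_of_subset (hP0.subset.trans hP)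
    (M.closure_subset_ground G)
  have hclP1 : M.closure P1 = M.closure G := by
    rw [hP1.closure_eq_closure, M.closure_closure]
  obtain ⟨J, hJ, hPJ⟩ := hP1.indep.subset_isBasis_of_subset (subset_union_left : P1 ⊆ P1 ∪ Q)
    (union_subset hP1.indep.subset_ground hQE)
  have hQJ : Q ⊆ J := by
    intro q hq
    by_contra hqJ
    have h1 : q ∈ M.closure J := hJ.subset_closure (Or.inr hq)
    have h2 : J ⊆ P1 ∪ (Q \ {q}) := by
      intro y hy
      rcases hJ.subset hy with h | h
      · exact Or.inl h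
      · refine Or.inr ⟨h, ?_⟩
        rintro rfl
        exact hqJ hy
    have h3 : q ∈ M.closure (G ∪ (Q \ {q})) := by
      have h4 := M.closure_subset_closure h2 h1
      rwa [M.closure_union_congr_left hclP1] at h4
    have h5 : G ∪ (Q \ {q}) ⊆ (G ∪ Q) \ {q} := by
      rintro y (hy | hy)
      · refine ⟨Or.inl hy, ?_⟩
        rintro rfl
        exact Set.disjoint_left.1 hdis hy hq
      · exact ⟨Or.inr hy.1, hy.2⟩
    exact hGQ.notMem_closure_sdiff_of_mem (Or.inr hq) (M.closure_subset_closure h5 h3)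
  have hI : M.Indep (P1 ∪ Q) := hJ.indep.subset (union_subset hPJ hQJ)
  have hQcl : ∀ q ∈ Q, q ∉ P1 := by
    intro q hq hq1
    have h1 : q ∈ M.closure G := hP1.subset hq1
    have h5 : M.closure G ⊆ M.closure ((G ∪ Q) \ {q}) := by
      refine M.closure_subset_closure ?_
      intro y hy
      refine ⟨Or.inl hy, ?_⟩
      rintro rfl
      exact Set.disjoint_left.1 hdis hy hq
    exact hGQ.notMem_closure_sdiff_of_mem (Or.inr hq) (h5 h1)
  have h6 : M.closure (P ∪ Q) = M.closure (P0 ∪ Q) :=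
    (M.closure_union_congr_left hP0.closure_eq_closure).symm
  have h7 : M.Indep ((P0 ∪ Q) ∪ P1) := by
    refine hI.subset ?_
    rintro y ((hy | hy) | hy)
    · exact Or.inl (hP01 hy)
    · exact Or.inr hy
    · exact Or.inl hy
  have h8 := h7.closure_inter_eq_inter_closure
  have h9 : (P0 ∪ Q) ∩ P1 ⊆ P0 := by
    rintro y ⟨hy | hy, hy1⟩
    · exact hy
    · exact absurd hy1 (hQcl y hy)
  have h10 : x ∈ M.closure ((P0 ∪ Q) ∩ P1) := by
    rw [h8]
    exact ⟨h6 ▸ hx.1, hclP1.symm ▸ hx.2⟩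
  exact M.closure_subset_closure (h9.trans hP0.subset) h10

end Pool.Agent.L7h41.KM
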