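import Pool.Agent.L7h51.KM.Stm

/-!
Project KM, part STEP: one step of the filtration.
-/

namespace Pool.Agent.L7h41.KM

open Pool.Agent.L7h51.KM Set Cardinal

universe u

/-- the stages of the iteration of a map -/
noncomputable def stage {α ι : Type u} [LinearOrder ι] [WellFoundedLT ι] (F : Set α → Set α)
    (A0 : Set α) : ι → Set α :=
  (wellFounded_lt (α := ι)).fix
    (fun i ih => A0 ∪ ⋃ j : {j // j < i}, (ih j.1 j.2 ∪ F (ih j.1 j.2)))

theorem stage_eq {α ι : Type u} [LinearOrder ι] [WellFoundedLT ι] (F : Set α → Set α)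
    (A0 : Set α) (i : ι) :
    stage F A0 i = A0 ∪ ⋃ j : {j // j < i}, (stage F A0 j.1 ∪ F (stage F A0 j.1)) :=
  (wellFounded_lt (α := ι)).fix_eq _ i

theorem base_subset_stage {α ι : Type u} [LinearOrder ι] [WellFoundedLT ι] (F : Set α → Set α)
    (A0 : Set α) (i : ι) : A0 ⊆ stage F A0 i := by
  rw [stage_eq]
  exact subset_union_left

theorem stage_lt {α ι : Type u} [LinearOrder ι] [WellFoundedLT ι] (F : Set α → Set α)
    (A0 : Set α) {i j : ι} (h : i < j) : stage F A0 i ∪ F (stage F A0 i) ⊆ stage F A0 j := by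
  rw [stage_eq F A0 j]
  exact (subset_iUnion (fun k : {k // k < j} => stage F A0 k.1 ∪ F (stage F A0 k.1))
    ⟨i, h⟩).trans subset_union_right

theorem stage_small {α ι : Type u} [LinearOrder ι] [WellFoundedLT ι] (F : Set α → Set α)
    (A0 E : Set α) (l : Cardinal.{u}) (hl : l.IsRegular) (hι : ∀ i : ι, #{j // j < i} < l)
    (h0 : #A0 < l) (h0E : A0 ⊆ E) (hF : ∀ A ⊆ E, #A < l → #(F A : Set α) < l ∧ F A ⊆ E) (i : ι) :
    #(stage F A0 i : Set α) < l ∧ stage F A0 i ⊆ E := by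
  induction i using WellFoundedLT.induction with
  | ind i ih =>
    rw [stage_eq]
    constructor
    · refine (mk_union_le _ _).trans_lt (add_lt_of_lt hl.aleph0_le h0 ?_)
      rw [card_iUnion_lt_iff_forall_of_isRegular hl (hι i)]
      intro j
      exact (mk_union_le _ _).trans_lt (add_lt_of_lt hl.aleph0_le (ih j.1 j.2).1
        (hF _ (ih j.1 j.2).2 (ih j.1 j.2).1).1)
    · refine union_subset h0E (iUnion_subset fun j => union_subset (ih j.1 j.2).2 ?_)
      exact (hF _ (ih j.1 j.2).2 (ih j.1 j.2).1).2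

theorem bound {α : Type u} {r : Cardinal.{u}} (hr : r.IsRegular) (T : r.ord.ToType → Set α)
    (hmono : ∀ i j, i < j → T i ⊆ T j) (Z : Set α) (hZ : #Z < r) (hZT : Z ⊆ ⋃ i, T i) :
    ∃ i, Z ⊆ T i := by
  classical
  have h : ∀ z : Z, ∃ i, (z : α) ∈ T i := fun z => mem_iUnion.1 (hZT z.2)
  choose f hf using h
  have h1 : #(range f) < r := mk_range_le.trans_lt hZ
  have h2 : ¬ IsCofinal (range f) := by
    intro h
    have h3 := Order.cof_le h
    rw [Ordinal.cof_toType, hr.cof_ord] at h3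
    exact absurd h3 (not_le.2 h1)
  rw [not_isCofinal_iff] at h2
  obtain ⟨i, hi⟩ := h2
  exact ⟨i, fun z hz => hmono _ _ (hi _ ⟨⟨z, hz⟩, rfl⟩) (hf ⟨z, hz⟩)⟩

theorem s_STEP (hDS : S_DS.{u}) : S_STEP.{u} := by
  intro α M r l hr hl hrl hM U hU hUl hUext X hX hXl 𝒢 h𝒢 hhull
  classical
  have hN : SmallCircuits r (M.restrict (M.E \ U)) := by
    intro C hC
    rw [Matroid.restrict_isCircuit_iff sdiff_subset] at hC
    exact hM C hC.1
  have hds := hDS α (M.restrict (M.E \ U)) r l hl hrl.le hN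
  choose! ds hds using hds
  choose! hull hhull using hhull
  have hNE : (M.restrict (M.E \ U)).E = M.E \ U := rfl
  have hF : ∀ A ⊆ M.E, #A < l →
      #(hull A ∪ ds (A \ U) : Set α) < l ∧ hull A ∪ ds (A \ U) ⊆ M.E := by
    intro A hA hAl
    have h1 := hhull A hA hAl
    have h2 := hds (A \ U) (by rw [hNE]; exact sdiff_subset_sdiff_left hA)
      ((mk_le_mk_of_subset sdiff_subset).trans_lt hAl)
    refine ⟨(mk_union_le _ _).trans_lt (add_lt_of_lt hl.aleph0_le h1.2.2.2 h2.2.2.1), ?_⟩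
    exact union_subset h1.2.2.1 (h2.2.1.trans (by rw [hNE]; exact sdiff_subset))
  have h0 : #(U ∪ X : Set α) < l :=
    (mk_union_le _ _).trans_lt (add_lt_of_lt hl.aleph0_le hUl hXl)
  have h0E : U ∪ X ⊆ M.E := union_subset hU hX
  have hι : ∀ i : r.ord.ToType, #{j // j < i} < l := by
    intro i
    have h1 : #{j // j < i} ≤ #r.ord.ToType := mk_subtype_le _
    rw [mk_toType, card_ord] at h1
    exact h1.trans_lt hrl
  have hιl : #r.ord.ToType < l := by
    rw [mk_toType, card_ord]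
    exact hrl
  obtain ⟨T, hT⟩ : ∃ T : r.ord.ToType → Set α,
      T = stage (fun A => hull A ∪ ds (A \ U)) (U ∪ X) := ⟨_, rfl⟩
  have hT0 : ∀ i, U ∪ X ⊆ T i := by
    intro i
    rw [hT]
    exact base_subset_stage _ _ i
  have hTs : ∀ i, #(T i) < l ∧ T i ⊆ M.E := by
    intro i
    rw [hT]
    exact stage_small _ _ M.E l hl hι h0 h0E hF i
  have hTlt : ∀ i j, i < j → T i ∪ (hull (T i) ∪ ds (T i \ U)) ⊆ T j := by
    intro i j hij
    rw [hT]
    exact stage_lt (fun A => hull A ∪ ds (A \ U)) (U ∪ X) hij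
  have hmono : ∀ i j, i < j → T i ⊆ T j := fun i j hij => subset_union_left.trans (hTlt i j hij)
  have : NoMaxOrder r.ord.ToType := noMaxOrder hr.aleph0_le
  have : Nonempty r.ord.ToType := by
    rw [← mk_ne_zero_iff, mk_toType, card_ord]
    exact hr.pos.ne'
  obtain ⟨i0⟩ := (inferInstance : Nonempty r.ord.ToType)
  have hH : ⋃ i, hull (T i) = ⋃ i, T i := by
    apply Subset.antisymm
    · refine iUnion_subset fun i => ?_
      obtain ⟨j, hj⟩ := exists_gt i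
      exact (subset_union_left.trans (subset_union_right.trans (hTlt i j hj))).trans
        (subset_iUnion T j)
    · exact iUnion_subset fun i => (hhull (T i) (hTs i).2 (hTs i).1).2.1.trans
        (subset_iUnion (fun i => hull (T i)) i)
  have hmem : ⋃ i, T i ∈ 𝒢 := by
    rw [← hH, ← sUnion_range]
    refine h𝒢 _ ?_
    rintro _ ⟨i, rfl⟩
    exact (hhull (T i) (hTs i).2 (hTs i).1).1
  have hTE : ⋃ i, T i ⊆ M.E := iUnion_subset fun i => (hTs i).2
  refine ⟨⋃ i, T i, hmem, (hT0 i0).trans (subset_iUnion T i0), hTE, ?_, ?_⟩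
  · rw [card_iUnion_lt_iff_forall_of_isRegular hl hιl]
    exact fun i => (hTs i).1
  intro 𝒜 h𝒜 h𝒜r e he
  have hRE : (⋃ i, T i) \ U ⊆ M.E := sdiff_subset.trans hTE
  have h𝒜c : ∀ C ∈ 𝒜, M.IsCircuit C ∧ C ⊆ (⋃ i, T i) \ U := by
    intro C hC
    have h1 := h𝒜.1 C hC
    rwa [Matroid.restrict_isCircuit_iff hRE] at h1
  have hZr : #(⋃₀ 𝒜) < r := by
    rw [sUnion_eq_biUnion, card_biUnion_lt_iff_forall_of_isRegular hr h𝒜r]
    exact fun C hC => hM C (h𝒜c C hC).1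
  have hZT : ⋃₀ 𝒜 ⊆ (⋃ i, T i) \ U := sUnion_subset fun C hC => (h𝒜c C hC).2
  have he1 : e ∈ (⋃ i, T i) \ U := he.1
  have he2 : e ∉ ⋃₀ 𝒜 := he.2
  have h𝒜N : IsMatching (M.restrict (M.E \ U)) 𝒜 := by
    refine ⟨fun C hC => ?_, h𝒜.2⟩
    rw [Matroid.restrict_isCircuit_iff sdiff_subset]
    exact ⟨(h𝒜c C hC).1, (h𝒜c C hC).2.trans (sdiff_subset_sdiff_left hTE)⟩
  obtain ⟨C', hC', heC', hC'Z⟩ := hUext 𝒜 h𝒜N h𝒜r e
    ⟨⟨hTE he1.1, he1.2⟩, he2⟩
  have hC'E : C' ⊆ M.E \ U := hC'.subset_ground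
  obtain ⟨i, hi⟩ := bound hr T hmono (insert e (⋃₀ 𝒜)) (by
    refine (mk_insert_le).trans_lt (add_lt_of_lt hr.aleph0_le hZr ?_)
    exact one_lt_aleph0.trans_le hr.aleph0_le) (insert_subset he1.1 (hZT.trans sdiff_subset))
  have hAE : T i \ U ⊆ (M.restrict (M.E \ U)).E := by
    rw [hNE]
    exact sdiff_subset_sdiff_left (hTs i).2
  have hA := hds (T i \ U) hAE ((mk_le_mk_of_subset sdiff_subset).trans_lt (hTs i).1)
  have hA4 := hA.2.2.2 ((T i \ U) \ insert e (⋃₀ 𝒜)) sdiff_subset e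
    ⟨hi (mem_insert _ _), he1.2⟩ (by
      have h1 : e ∈ (M.restrict (M.E \ U)).closure (C' \ {e}) :=
        hC'.mem_closure_sdiff_singleton_of_mem heC'
      refine Matroid.closure_subset_closure _ ?_ h1
      rintro y ⟨hy1, hy2⟩
      by_cases hyA : y ∈ T i \ U
      · refine Or.inl ⟨hyA, ?_⟩
        rintro (rfl | hyZ)
        · exact hy2 rfl
        · exact Set.disjoint_left.1 hC'Z hy1 hyZ
      · exact Or.inr ⟨hC'E hy1, hyA⟩)
  obtain ⟨j, hj⟩ := exists_gt i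
  have hA'T : ds (T i \ U) ⊆ (⋃ i, T i) \ U := by
    intro y hy
    refine ⟨mem_iUnion.2 ⟨j, hTlt i j hj (Or.inr (Or.inr hy))⟩, ?_⟩
    have h1 := hA.2.1 hy
    rw [hNE] at h1
    exact h1.2
  have hY : ((T i \ U) \ insert e (⋃₀ 𝒜)) ∪ (ds (T i \ U) \ (T i \ U)) ⊆
      ((⋃ i, T i) \ U) \ insert e (⋃₀ 𝒜) := by
    rintro y (hy | hy)
    · exact ⟨⟨mem_iUnion.2 ⟨i, hy.1.1⟩, hy.1.2⟩, hy.2⟩
    · refine ⟨hA'T hy.1, ?_⟩
      intro hy3
      refine hy.2 ⟨hi hy3, ?_⟩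
      rcases hy3 with rfl | hy3
      · exact he1.2
      · exact (hZT hy3).2
  obtain ⟨C, hCY, hC, heC⟩ := Matroid.exists_isCircuit_of_mem_closure
    (Matroid.closure_subset_closure _ hY hA4) (fun h => h.2 (mem_insert _ _))
  rw [Matroid.restrict_isCircuit_iff sdiff_subset] at hC
  refine ⟨C, ?_, heC, ?_⟩
  · rw [Matroid.restrict_isCircuit_iff hRE]
    refine ⟨hC.1, hCY.trans ?_⟩
    exact insert_subset he1 sdiff_subset
  · rw [Set.disjoint_left]
    intro y hy hyZ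
    rcases hCY hy with rfl | hy2
    · exact he2 hyZ
    · exact hy2.2 (mem_insert_of_mem _ hyZ)

end Pool.Agent.L7h41.KM
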